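import Pool.Agent.Helper61.DL.BoxSound
import Pool.Agent.Helper61.DL.BoxData1
import Pool.Agent.Helper61.DL.BoxData2
import Pool.Agent.Helper61.DL.BoxData3
import Pool.Agent.Helper61.DL.BoxData4

/-!
Packet BOXFIN (MP_b4564f_an): the boxes for `3 ≤ k ≤ 120`.
-/

set_option autoImplicit false

open Filter Topology Finset

namespace Pool.Agent.Helper61.DL

open Pool.Agent.Helper30.DL

lemma exp_lb (x t : ℝ) (hx : 0 ≤ x) (h : t ≤ ∑ i ∈ range 14, x ^ i / (i.factorial : ℝ)) :
    t ≤ Real.exp x := h.trans (Real.sum_le_exp_of_nonneg hx 14)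

lemma exp_neg_ub (x t : ℝ) (hx : 0 ≤ x) (ht : 0 < t)
    (h : 1 / t ≤ ∑ i ∈ range 14, x ^ i / (i.factorial : ℝ)) :
    Real.exp (-x) ≤ t := by
  have h1 := exp_lb x (1 / t) hx h
  rw [Real.exp_neg, inv_le_comm₀ (Real.exp_pos x) ht]
  simpa using h1

lemma tB_le (k : ℕ) : (tB k : ℝ) / 1000000000 ≤ Real.exp (bM k) := by
  unfold tB bM
  split_ifs <;> refine exp_lb _ _ (by norm_num) ?_ <;>
    norm_num [Finset.sum_range_succ, Nat.factorial]

lemma tm_ge (k : ℕ) : Real.exp (-(bm k)) ≤ (tm k : ℝ) / 1000000000 := by
  unfold tm bm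
  split_ifs <;> refine exp_neg_ub _ _ (by norm_num) (by norm_num) ?_ <;>
    norm_num [Finset.sum_range_succ, Nat.factorial]

lemma ent_all (k : ℕ) (h3 : 3 ≤ k) (h120 : k ≤ 120) : ∃ P N l, ent k P N l = true := by
  interval_cases k
  · exact e3
  · exact e4
  · exact e5
  · exact e6
  · exact e7
  · exact e8
  · exact e9
  · exact e10
  · exact e11
  · exact e12
  · exact e13
  · exact e14
  · exact e15
  · exact e16
  · exact e17
  · exact e18
  · exact e19
  · exact e20
  · exact e21
  · exact e22
  · exact e23
  · exact e24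
  · exact e25
  · exact e26
  · exact e27
  · exact e28
  · exact e29
  · exact e30
  · exact e31
  · exact e32
  · exact e33
  · exact e34
  · exact e35
  · exact e36
  · exact e37
  · exact e38
  · exact e39
  · exact e40
  · exact e41
  · exact e42
  · exact e43
  · exact e44
  · exact e45
  · exact e46
  · exact e47
  · exact e48
  · exact e49
  · exact e50
  · exact e51
  · exact e52
  · exact e53
  · exact e54
  · exact e55
  · exact e56
  · exact e57
  · exact e58
  · exact e59
  · exact e60
  · exact e61
  · exact e62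
  · exact e63
  · exact e64
  · exact e65
  · exact e66
  · exact e67
  · exact e68
  · exact e69
  · exact e70
  · exact e71
  · exact e72
  · exact e73
  · exact e74
  · exact e75
  · exact e76
  · exact e77
  · exact e78
  · exact e79
  · exact e80
  · exact e81
  · exact e82
  · exact e83
  · exact e84
  · exact e85
  · exact e86
  · exact e87
  · exact e88
  · exact e89
  · exact e90
  · exact e91
  · exact e92
  · exact e93
  · exact e94
  · exact e95
  · exact e96
  · exact e97
  · exact e98
  · exact e99
  · exact e100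
  · exact e101
  · exact e102
  · exact e103
  · exact e104
  · exact e105
  · exact e106
  · exact e107
  · exact e108
  · exact e109
  · exact e110
  · exact e111
  · exact e112
  · exact e113
  · exact e114
  · exact e115
  · exact e116
  · exact e117
  · exact e118
  · exact e119
  · exact e120

theorem boxFin (hU : ExtUStmt) (hD : ExtDStmt) : BoxFinStmt := by
  intro k p X h3 h120 hp0 hp hX
  obtain ⟨P, N, l, he⟩ := ent_all k h3 h120
  unfold ent at he
  simp only [Bool.and_eq_true] at he
  obtain ⟨h1, h2, h4, h5⟩ := he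
  have hpP : p * 1000000000 ≤ P := by
    have := pc_le k P (by omega) h1
    have h6 : p * 1000000000 ≤ pc k * 1000000000 :=
      mul_le_mul_of_nonneg_right hp (by norm_num)
    linarith
  have hres := chain_sound hU hD k p X P N (tB k) (tm k) (Nat.le_of_ble_eq_true h4)
    (Nat.le_of_ble_eq_true h2) hp0 hpP hX l 0 (Nat.zero_le _) h5
    (Or.inr (Filter.Eventually.of_forall (fun n => by
      simpa using (hX.1 n).le)))
  rcases hres with h | ⟨ha, hb⟩
  · exact Or.inl h
  · right
    constructor
    · filter_upwards [ha] with n hn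
      rw [Real.log_le_iff_le_exp (hX.1 n)]
      exact hn.trans (tB_le k)
    · filter_upwards [hb] with n hn
      rw [Real.le_log_iff_exp_le (hX.1 n)]
      exact (tm_ge k).trans hn

end Pool.Agent.Helper61.DL
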