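import Pool.Agent.Helper30.DL.GoalsD

/-!
Packet GSER (MP_b4564f_an): Taylor expansion of order 8 of the nonlinearity.
-/

set_option autoImplicit false

open Filter Topology Finset

namespace Pool.Agent.Helper61.DL

open Pool.Agent.Helper30 Pool.Agent.Helper30.DL

/-! ### A Taylor estimate -/

lemma tayPos (n : ℕ) : ∀ (F : ℕ → ℝ → ℝ), (∀ i < n, ∀ x, HasDerivAt (F i) (F (i + 1) x) x) →
    (∀ i < n, F i 0 = 0) → ∀ a K : ℝ, (∀ x, 0 ≤ x → x ≤ a → |F n x| ≤ K) →
    ∀ x, 0 ≤ x → x ≤ a → |F 0 x| ≤ K * x ^ n / (n.factorial : ℝ) := by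
  induction n with
  | zero =>
    intro F _ _ a K hK x hx hxa
    simpa using hK x hx hxa
  | succ n ih =>
    intro F hd h0 a K hK x hx hxa
    have h1 := ih (fun i => F (i + 1)) (fun i hi => hd (i + 1) (by omega))
      (fun i hi => h0 (i + 1) (by omega)) a K hK
    have hfac : ((n + 1).factorial : ℝ) = (n + 1) * (n.factorial : ℝ) := by
      rw [Nat.factorial_succ]; push_cast; ring
    have hfp : (0 : ℝ) < (n.factorial : ℝ) := by exact_mod_cast Nat.factorial_pos n
    have hB : ∀ y : ℝ, HasDerivAt (fun y => K * y ^ (n + 1) / ((n + 1).factorial : ℝ))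
        (K * y ^ n / (n.factorial : ℝ)) y := by
      intro y
      have h := ((hasDerivAt_pow (n + 1) y).const_mul K).div_const ((n + 1).factorial : ℝ)
      refine h.congr_deriv ?_
      rw [hfac]
      push_cast
      field_simp
    have h2 := image_norm_le_of_norm_deriv_right_le_deriv_boundary (f := F 0) (f' := F 1)
      (a := 0) (b := x) (B := fun y => K * y ^ (n + 1) / ((n + 1).factorial : ℝ))
      (B' := fun y => K * y ^ n / (n.factorial : ℝ))
      (fun y _ => (hd 0 (by omega) y).continuousAt.continuousWithinAt)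
      (fun y _ => (hd 0 (by omega) y).hasDerivWithinAt)
      (by rw [h0 0 (by omega)]; simp) hB
      (fun y hy => h1 y hy.1 (hy.2.le.trans hxa))
    exact h2 (Set.mem_Icc.mpr ⟨hx, le_rfl⟩)

lemma tay (n : ℕ) (F : ℕ → ℝ → ℝ) (hd : ∀ i < n, ∀ x, HasDerivAt (F i) (F (i + 1) x) x)
    (h0 : ∀ i < n, F i 0 = 0) (a K : ℝ)
    (hK : ∀ x, (0 ≤ x ∧ x ≤ a) ∨ (a ≤ x ∧ x ≤ 0) → |F n x| ≤ K) :
    |F 0 a| ≤ K * |a| ^ n / (n.factorial : ℝ) := by
  rcases le_total 0 a with ha | ha
  · rw [abs_of_nonneg ha]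
    exact tayPos n F hd h0 a K (fun x hx hxa => hK x (Or.inl ⟨hx, hxa⟩)) a ha le_rfl
  · rw [abs_of_nonpos ha]
    have h := tayPos n (fun i x => (-1) ^ i * F i (-x)) ?_ ?_ (-a) K ?_ (-a) (by linarith) le_rfl
    · simpa using h
    · intro i hi x
      have h1 := ((hd i hi (-x)).comp x (hasDerivAt_neg x)).const_mul ((-1 : ℝ) ^ i)
      refine h1.congr_deriv ?_
      rw [pow_succ]; ring
    · intro i hi
      simp [h0 i hi]
    · intro x hx hxa
      simp only [abs_mul, abs_pow, abs_neg, abs_one, one_pow, one_mul]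
      exact hK (-x) (Or.inr ⟨by linarith, by linarith⟩)

/-! ### The cumulants -/

/-- a polynomial of degree at most 8 without constant term -/
def pol (c1 c2 c3 c4 c5 c6 c7 c8 s : ℝ) : ℝ :=
  c1 * s + c2 * s ^ 2 + c3 * s ^ 3 + c4 * s ^ 4 + c5 * s ^ 5 + c6 * s ^ 6 + c7 * s ^ 7 + c8 * s ^ 8

lemma pol_deriv (c1 c2 c3 c4 c5 c6 c7 c8 s : ℝ) :
    HasDerivAt (pol c1 c2 c3 c4 c5 c6 c7 c8)
      (c1 + 2 * c2 * s + 3 * c3 * s ^ 2 + 4 * c4 * s ^ 3 + 5 * c5 * s ^ 4 + 6 * c6 * s ^ 5
        + 7 * c7 * s ^ 6 + 8 * c8 * s ^ 7) s := by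
  have h := ((((((((hasDerivAt_id s).const_mul c1).add ((hasDerivAt_pow 2 s).const_mul c2)).add
    ((hasDerivAt_pow 3 s).const_mul c3)).add ((hasDerivAt_pow 4 s).const_mul c4)).add
    ((hasDerivAt_pow 5 s).const_mul c5)).add ((hasDerivAt_pow 6 s).const_mul c6)).add
    ((hasDerivAt_pow 7 s).const_mul c7)).add ((hasDerivAt_pow 8 s).const_mul c8)
  refine h.congr_deriv ?_
  push_cast
  ring

/-- the cumulant polynomials -/
def ka : ℕ → ℝ → ℝ
  | 0 => fun _ => 0
  | 1 => pol 1 0 0 0 0 0 0 0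
  | 2 => pol 1 (-1) 0 0 0 0 0 0
  | 3 => pol 1 (-3) 2 0 0 0 0 0
  | 4 => pol 1 (-7) 12 (-6) 0 0 0 0
  | 5 => pol 1 (-15) 50 (-60) 24 0 0 0
  | 6 => pol 1 (-31) 180 (-390) 360 (-120) 0 0
  | 7 => pol 1 (-63) 602 (-2100) 3360 (-2520) 720 0
  | 8 => pol 1 (-127) 1932 (-10206) 25200 (-31920) 20160 (-5040)
  | _ => fun _ => 0

/-- derivatives of `FF p` -/
noncomputable def Kd (p : ℝ) (i : ℕ) (x : ℝ) : ℝ := if i = 0 then PL.FF p x else ka i (PL.lg p x)

lemma Kd_deriv (p : ℝ) (h0 : 0 < p) (h1 : p < 1) (i : ℕ) (hi : i < 8) (x : ℝ) :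
    HasDerivAt (Kd p i) (Kd p (i + 1) x) x := by
  have hl := PL.hasDeriv_lg h0 h1 x
  interval_cases i
  · have h : HasDerivAt (PL.FF p) (PL.lg p x) x := PL.hasDeriv_FF h0 h1 x
    have e : Kd p 0 = PL.FF p := by funext y; simp [Kd]
    rw [e]
    refine h.congr_deriv ?_
    simp [Kd, ka, pol]
  all_goals
    refine (HasDerivAt.congr_deriv (HasDerivAt.comp x (pol_deriv _ _ _ _ _ _ _ _ _) hl) ?_)
    simp only [Kd, ka, pol]
    norm_num
    ring

/-- the Taylor polynomials -/
noncomputable def TT (d : ℕ → ℝ) (m : ℕ) (x : ℝ) : ℝ :=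
  ∑ j ∈ range 8, d (m + j) * x ^ j / (j.factorial : ℝ)

lemma TT_deriv (d : ℕ → ℝ) (hd : ∀ n, 8 ≤ n → d n = 0) (m : ℕ) (x : ℝ) :
    HasDerivAt (TT d m) (TT d (m + 1) x) x := by
  have h : HasDerivAt (fun y => ∑ j ∈ range 8, d (m + j) * y ^ j / (j.factorial : ℝ))
      (∑ j ∈ range 8, d (m + j) * ((j : ℝ) * x ^ (j - 1)) / (j.factorial : ℝ)) x :=
    HasDerivAt.fun_sum (fun j _ => ((hasDerivAt_pow j x).const_mul (d (m + j))).div_const _)
  refine h.congr_deriv ?_
  unfold TT
  have h8 : d (m + 1 + 7) = 0 := hd _ (by omega)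
  simp only [Finset.sum_range_succ, Finset.sum_range_zero, h8, Nat.factorial]
  have e1 : m + 1 + 0 = m + 1 := by omega
  have e2 : m + 1 + 1 = m + 2 := by omega
  have e3 : m + 1 + 2 = m + 3 := by omega
  have e4 : m + 1 + 3 = m + 4 := by omega
  have e5 : m + 1 + 4 = m + 5 := by omega
  have e6 : m + 1 + 5 = m + 6 := by omega
  have e7 : m + 1 + 6 = m + 7 := by omega
  simp only [e1, e2, e3, e4, e5, e6, e7]
  push_cast
  norm_num
  ring

/-! ### The eighth cumulant -/

/-- `κ₈ s / s` -/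
def hh (s : ℝ) : ℝ := 1 - 127 * s + 1932 * s ^ 2 - 10206 * s ^ 3 + 25200 * s ^ 4 - 31920 * s ^ 5
  + 20160 * s ^ 6 - 5040 * s ^ 7

lemma cellA0 (s : ℝ) (h0 : 0 ≤ s) (h1 : s ≤ (63 / 400)) :
    0 ≤ 276 / 100 - hh s := by
  have e : ∀ x y : ℝ, 0 ≤ x → 0 ≤ y → 0 ≤ (2883584000000000000 / 3938980639167) * (x ^ 0 * y ^ 7)
      + (7565312000000000000 / 562711519881) * (x ^ 1 * y ^ 6)
      + (8507924480000000000 / 187570506627) * (x ^ 2 * y ^ 5)
      + (37890061465600000000 / 562711519881) * (x ^ 3 * y ^ 4)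
      + (29581349248000000000 / 562711519881) * (x ^ 4 * y ^ 3)
      + (12183252723200000 / 546852789) * (x ^ 5 * y ^ 2)
      + (2706725948200832000 / 562711519881) * (x ^ 6 * y ^ 1)
      + (1642793291417625680 / 3938980639167) * (x ^ 7 * y ^ 0) := by
    intro x y hx hy
    positivity
  have h := e (s - 0) ((63 / 400) - s) (by linarith) (by linarith)
  refine h.trans (le_of_eq ?_)
  unfold hh
  ring

lemma cellA1 (s : ℝ) (h0 : (63 / 400) ≤ s) (h1 : s ≤ (189 / 800)) :
    0 ≤ 276 / 100 - hh s := by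
  have e : ∀ x y : ℝ, 0 ≤ x → 0 ≤ y → 0 ≤ (210277541301456087040 / 3938980639167) * (x ^ 0 * y ^ 7)
      + (142185851267330882560 / 562711519881) * (x ^ 1 * y ^ 6)
      + (87156467763559651840 / 187570506627) * (x ^ 2 * y ^ 5)
      + (33911423700249478400 / 80387359983) * (x ^ 3 * y ^ 4)
      + (119233409446728963200 / 562711519881) * (x ^ 4 * y ^ 3)
      + (15855075765992320960 / 187570506627) * (x ^ 5 * y ^ 2)
      + (22336290487640129440 / 562711519881) * (x ^ 6 * y ^ 1)
      + (41653805069834466160 / 3938980639167) * (x ^ 7 * y ^ 0) := by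
    intro x y hx hy
    positivity
  have h := e (s - (63 / 400)) ((189 / 800) - s) (by linarith) (by linarith)
  refine h.trans (le_of_eq ?_)
  unfold hh
  ring

lemma cellA2 (s : ℝ) (h0 : (189 / 800) ≤ s) (h1 : s ≤ (63 / 200)) :
    0 ≤ 276 / 100 - hh s := by
  have e : ∀ x y : ℝ, 0 ≤ x → 0 ≤ y → 0 ≤ (41653805069834466160 / 3938980639167) * (x ^ 0 * y ^ 7)
      + (60971319652028802880 / 562711519881) * (x ^ 1 * y ^ 6)
      + (93125134094769667840 / 187570506627) * (x ^ 2 * y ^ 5)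
      + (97484805295430220800 / 80387359983) * (x ^ 3 * y ^ 4)
      + (944619709811329740800 / 562711519881) * (x ^ 4 * y ^ 3)
      + (248160772968979578880 / 187570506627) * (x ^ 5 * y ^ 2)
      + (311892661310902435840 / 562711519881) * (x ^ 6 * y ^ 1)
      + (377957141989190533120 / 3938980639167) * (x ^ 7 * y ^ 0) := by
    intro x y hx hy
    positivity
  have h := e (s - (189 / 800)) ((63 / 200) - s) (by linarith) (by linarith)
  refine h.trans (le_of_eq ?_)
  unfold hh
  ring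

lemma cellA3 (s : ℝ) (h0 : (63 / 200) ≤ s) (h1 : s ≤ (63 / 100)) :
    0 ≤ 276 / 100 - hh s := by
  have e : ∀ x y : ℝ, 0 ≤ x → 0 ≤ y → 0 ≤ (23068673217113680 / 3938980639167) * (x ^ 0 * y ^ 7)
      + (39197696820211360 / 562711519881) * (x ^ 1 * y ^ 6)
      + (57604642626790720 / 187570506627) * (x ^ 2 * y ^ 5)
      + (349211908675587200 / 562711519881) * (x ^ 3 * y ^ 4)
      + (347795029654534400 / 562711519881) * (x ^ 4 * y ^ 3)
      + (60663357378357760 / 187570506627) * (x ^ 5 * y ^ 2)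
      + (7047069065743360 / 80387359983) * (x ^ 6 * y ^ 1)
      + (39692479188183040 / 3938980639167) * (x ^ 7 * y ^ 0) := by
    intro x y hx hy
    positivity
  have h := e (s - (63 / 200)) ((63 / 100) - s) (by linarith) (by linarith)
  refine h.trans (le_of_eq ?_)
  unfold hh
  ring

lemma cellB0 (s : ℝ) (h0 : 0 ≤ s) (h1 : s ≤ (63 / 400)) :
    0 ≤ 276 / 100 + hh s := by
  have e : ∀ x y : ℝ, 0 ≤ x → 0 ≤ y → 0 ≤ (6160384000000000000 / 3938980639167) * (x ^ 0 * y ^ 7)
      + (1478656000000000000 / 562711519881) * (x ^ 1 * y ^ 6)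
      + (536043520000000000 / 187570506627) * (x ^ 2 * y ^ 5)
      + (1047111219200000000 / 80387359983) * (x ^ 3 * y ^ 4)
      + (15638490752000000000 / 562711519881) * (x ^ 4 * y ^ 3)
      + (4865112315942400000 / 187570506627) * (x ^ 5 * y ^ 2)
      + (6337242051799168000 / 562711519881) * (x ^ 6 * y ^ 1)
      + (7401174708582374320 / 3938980639167) * (x ^ 7 * y ^ 0) := by
    intro x y hx hy
    positivity
  have h := e (s - 0) ((63 / 400) - s) (by linarith) (by linarith)
  refine h.trans (le_of_eq ?_)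
  unfold hh
  ring

lemma cellB1 (s : ℝ) (h0 : (63 / 400) ≤ s) (h1 : s ≤ (63 / 200)) :
    0 ≤ 276 / 100 + hh s := by
  have e : ∀ x y : ℝ, 0 ≤ x → 0 ≤ y → 0 ≤ (7401174708582374320 / 3938980639167) * (x ^ 0 * y ^ 7)
      + (8465107365365580640 / 562711519881) * (x ^ 1 * y ^ 6)
      + (9120842943075225280 / 187570506627) * (x ^ 2 * y ^ 5)
      + (6589620565945270400 / 80387359983) * (x ^ 3 * y ^ 4)
      + (44170578830211065600 / 562711519881) * (x ^ 4 * y ^ 3)
      + (8082799338894538240 / 187570506627) * (x ^ 5 * y ^ 2)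
      + (7123435338807700480 / 562711519881) * (x ^ 6 * y ^ 1)
      + (6091177828209448960 / 3938980639167) * (x ^ 7 * y ^ 0) := by
    intro x y hx hy
    positivity
  have h := e (s - (63 / 400)) ((63 / 200) - s) (by linarith) (by linarith)
  refine h.trans (le_of_eq ?_)
  unfold hh
  ring

lemma cellB2 (s : ℝ) (h0 : (63 / 200) ≤ s) (h1 : s ≤ (63 / 100)) :
    0 ≤ 276 / 100 + hh s := by
  have e : ∀ x y : ℝ, 0 ≤ x → 0 ≤ y → 0 ≤ (47587326782886320 / 3938980639167) * (x ^ 0 * y ^ 7)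
      + (31458303179788640 / 562711519881) * (x ^ 1 * y ^ 6)
      + (13051357373209280 / 187570506627) * (x ^ 2 * y ^ 5)
      + (4068091324412800 / 562711519881) * (x ^ 3 * y ^ 4)
      + (5484970345465600 / 562711519881) * (x ^ 4 * y ^ 3)
      + (1427520374520320 / 26795786661) * (x ^ 5 * y ^ 2)
      + (21326516539796480 / 562711519881) * (x ^ 6 * y ^ 1)
      + (30963520811816960 / 3938980639167) * (x ^ 7 * y ^ 0) := by
    intro x y hx hy
    positivity
  have h := e (s - (63 / 200)) ((63 / 100) - s) (by linarith) (by linarith)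
  refine h.trans (le_of_eq ?_)
  unfold hh
  ring

lemma hh_abs (s : ℝ) (h0 : 0 ≤ s) (h1 : s ≤ 63 / 100) : |hh s| ≤ 276 / 100 := by
  rw [abs_le]
  constructor
  · have : 0 ≤ 276 / 100 + hh s := by
      rcases le_total s (63 / 400) with h | h
      · exact cellB0 s h0 h
      rcases le_total s (63 / 200) with h' | h'
      · exact cellB1 s h h'
      · exact cellB2 s h' h1
    linarith
  · have : 0 ≤ 276 / 100 - hh s := by
      rcases le_total s (63 / 400) with h | h
      · exact cellA0 s h0 h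
      rcases le_total s (189 / 800) with h' | h'
      · exact cellA1 s h h'
      rcases le_total s (63 / 200) with h'' | h''
      · exact cellA2 s h' h''
      · exact cellA3 s h'' h1
    linarith

lemma exp34 : Real.exp (3 / 4) ≤ 21171 / 10000 := by
  have h := Real.exp_bound' (x := 3 / 4) (by norm_num) (by norm_num) (n := 8) (by norm_num)
  refine h.trans ?_
  norm_num [Finset.sum_range_succ, Nat.factorial]

lemma lg_bd (q x : ℝ) (hq0 : 0 < q) (hq1 : q ≤ 4451 / 10000) (hx : x ≤ 3 / 4) :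
    0 ≤ PL.lg q x ∧ PL.lg q x ≤ 63 / 100 ∧ PL.lg q x ≤ 21171 / 10000 * q := by
  have hq1' : q < 1 := by linarith
  have hE : Real.exp x ≤ 21171 / 10000 := (Real.exp_le_exp.mpr hx).trans exp34
  have hE0 := Real.exp_pos x
  have hD := PL.den_pos hq0 hq1' x
  refine ⟨(PL.lg_pos hq0 hq1' x).le, ?_, ?_⟩
  · unfold PL.lg
    rw [div_le_iff₀ hD]
    have h1 : q * Real.exp x ≤ q * (21171 / 10000) := mul_le_mul_of_nonneg_left hE hq0.le
    nlinarith
  · unfold PL.lg
    rw [div_le_iff₀ hD]
    rcases le_total 1 (Real.exp x) with h | h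
    · have h1 : 1 ≤ 1 - q + q * Real.exp x := by nlinarith
      have h2 : q * Real.exp x ≤ 21171 / 10000 * q := by nlinarith
      have h3 : 21171 / 10000 * q * 1 ≤ 21171 / 10000 * q * (1 - q + q * Real.exp x) :=
        mul_le_mul_of_nonneg_left h1 (by positivity)
      linarith
    · have h1 : q * Real.exp x ≤ q * (1 - q + q * Real.exp x) := by
        apply mul_le_mul_of_nonneg_left _ hq0.le
        nlinarith
      have h2 : q * (1 - q + q * Real.exp x)
          ≤ 21171 / 10000 * q * (1 - q + q * Real.exp x) := by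
        apply mul_le_mul_of_nonneg_right _ hD.le
        linarith
      linarith

lemma pp_le (t : ℝ) (ht0 : 0 < t) (ht : t ≤ Real.pi / 14) : pp t ≤ 4451 / 10000 := by
  have hpi1 := Real.pi_lt_d4
  have hpi2 := Real.pi_gt_d4
  set x : ℝ := Real.pi / 14 with hx
  have hx1 : x ≤ 2244 / 10000 := by rw [hx]; linarith
  have hx2 : 22439 / 100000 ≤ x := by rw [hx]; linarith
  have h1 : Real.sin t ≤ Real.sin x :=
    Real.sin_le_sin_of_le_of_le_pi_div_two (by linarith) (by rw [hx]; linarith) ht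
  have h2 := Real.sin_bound (x := x) (by rw [abs_of_pos (by linarith)]; linarith)
  rw [abs_of_pos (by linarith : 0 < x)] at h2
  have h3 := (abs_le.mp h2).2
  have h4 : (22439 / 100000 : ℝ) ^ 3 ≤ x ^ 3 := pow_le_pow_left₀ (by norm_num) hx2 3
  have h5 : x ^ 5 ≤ (2244 / 10000 : ℝ) ^ 5 := pow_le_pow_left₀ (by linarith) hx1 5
  unfold pp
  norm_num at h4 h5
  linarith

theorem gser : GserStmt := by
  intro t e a ht0 ht he0 he ha1 ha2
  have hpi := Real.pi_lt_d4
  have hsin : 0 < Real.sin t := Real.sin_pos_of_pos_of_lt_pi ht0 (by linarith)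
  have hsint : Real.sin t ≤ t := Real.sin_le ht0.le
  have hpp : pp t ≤ 4451 / 10000 := pp_le t ht0 ht
  have hpp0 : 0 < pp t := by unfold pp; linarith
  set q : ℝ := (1 - e) * pp t with hq
  have hq0 : 0 < q := mul_pos (by linarith) hpp0
  have hqpp : q ≤ pp t := by rw [hq]; nlinarith
  have hq1 : q ≤ 4451 / 10000 := hqpp.trans hpp
  have hq1' : q < 1 := by linarith
  have hqt : q ≤ 2 * t := by
    refine hqpp.trans ?_
    unfold pp; linarith
  set d : ℕ → ℝ := fun n => if n = 0 then 0 else if n < 8 then ka n q else 0 with hd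
  have hd8 : ∀ n, 8 ≤ n → d n = 0 := by
    intro n hn
    rw [hd]
    simp only
    rw [if_neg (by omega), if_neg (by omega)]
  have key := tay 8 (fun i x => Kd q i x - TT d i x) ?_ ?_ a
    (276 / 100 * (21171 / 10000 * q)) ?_
  · -- conclusion
    have e0 : Kd q 0 a = PL.FF q a := by simp [Kd]
    simp only [e0] at key
    set R : ℝ := PL.FF q a - TT d 0 a with hR
    have hfac : ((Nat.factorial 8 : ℕ) : ℝ) = 40320 := by norm_num [Nat.factorial]
    rw [hfac] at key
    refine ⟨if a = 0 then 0 else R / (2 * t * a ^ 8), ?_, ?_⟩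
    · split_ifs with h0
      · norm_num
      · have ha8 : 0 < |a| ^ 8 := by positivity
        rw [abs_div, abs_mul, abs_pow, abs_of_pos (by linarith : 0 < 2 * t)]
        rw [div_le_iff₀ (by positivity)]
        refine key.trans ?_
        have h1 : 276 / 100 * (21171 / 10000 * q) ≤ 276 / 100 * (21171 / 10000 * (2 * t)) := by
          linarith
        calc 276 / 100 * (21171 / 10000 * q) * |a| ^ 8 / 40320
            ≤ 276 / 100 * (21171 / 10000 * (2 * t)) * |a| ^ 8 / 40320 := by gcongr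
          _ = (276 / 100 * (21171 / 10000) / 40320) * (2 * t * |a| ^ 8) := by ring
          _ ≤ 145 / 1000000 * (2 * t * |a| ^ 8) := by
              apply mul_le_mul_of_nonneg_right _ (by positivity)
              norm_num
    · have hth : th t = 2 * t := rfl
      have hgf : gf t e a = (PL.FF q a - pp t * a) / (2 * t) := by
        unfold gf
        rw [hth]
      have hFF : PL.FF q a = TT d 0 a + R := by rw [hR]; ring
      have hRa : R = 2 * t * (if a = 0 then 0 else R / (2 * t * a ^ 8)) * a ^ 8 := by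
        split_ifs with h0
        · have hR0 : |R| ≤ 0 := by
            refine key.trans (le_of_eq ?_)
            rw [h0]; simp
          have : R = 0 := abs_eq_zero.mp (le_antisymm hR0 (abs_nonneg _))
          rw [this]; ring
        · field_simp
      rw [hgf, hFF]
      set c8 : ℝ := (if a = 0 then 0 else R / (2 * t * a ^ 8)) with hc8
      rw [hRa]
      have hs : Real.sin t = pp t / 2 := by unfold pp; ring
      unfold mkGs Gs.ev TT ph
      rw [hs]
      simp only [Finset.sum_range_succ, Finset.sum_range_zero, Nat.factorial, hd, ka, pol]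
      norm_num
      rw [← hq]
      field_simp
      rw [hq]
      ring
  · intro i hi x
    exact (Kd_deriv q hq0 hq1' i hi x).sub (TT_deriv d hd8 i x)
  · intro i hi
    have h1 : TT d i 0 = d i := by
      unfold TT
      rw [Finset.sum_range_succ']
      simp
    rw [h1]
    by_cases h0 : i = 0
    · subst h0
      simp [Kd, hd, PL.FF_zero]
    · simp only [Kd, hd, if_neg h0, if_pos hi, PL.lg_zero, sub_self]
  · intro x hx
    have hx34 : x ≤ 3 / 4 := by
      rcases hx with h | h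
      · linarith [h.2]
      · linarith [h.2]
    obtain ⟨h1, h2, h3⟩ := lg_bd q x hq0 hq1 hx34
    have hT : TT d 8 x = 0 := by
      unfold TT
      apply Finset.sum_eq_zero
      intro j _
      rw [hd8 (8 + j) (by omega)]
      simp
    rw [hT, sub_zero]
    have h4 : Kd q 8 x = hh (PL.lg q x) * PL.lg q x := by
      simp only [Kd, ka, pol, hh]
      norm_num
      ring
    rw [h4, abs_mul, abs_of_nonneg h1]
    exact mul_le_mul (hh_abs _ h1 h2) h3 h1 (by norm_num)

end Pool.Agent.Helper61.DL
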