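import Mathlib

/-!
Kernel-friendly fixed point computation (scale `10^9`) of the boxes for Pielou's equation.
-/

set_option autoImplicit false

namespace Pool.Agent.Helper61.DL

/-- lower bound for the product in the step upwards -/
def prU (P m g : ℕ) (n : ℕ) : ℕ → ℕ → ℕ :=
  Nat.rec (motive := fun _ => ℕ → ℕ → ℕ) (fun _ acc => acc)
    (fun _ ih x acc => ih (Nat.div (Nat.mul x g) 1000000000)
      (Nat.div (Nat.mul acc (Nat.add g (Nat.div (Nat.mul P (Nat.sub x m)) 1000000000)))
        1000000000)) n

/-- upper bound for the product in the step downwards -/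
def prD (P B G : ℕ) (n : ℕ) : ℕ → ℕ → ℕ :=
  Nat.rec (motive := fun _ => ℕ → ℕ → ℕ) (fun _ acc => acc)
    (fun _ ih x acc => ih (Nat.succ (Nat.div (Nat.mul x G) 1000000000))
      (Nat.succ (Nat.div (Nat.mul acc (Nat.sub G (Nat.div (Nat.mul P (Nat.sub B x)) 1000000000)))
        1000000000))) n

/-- all cells of the step upwards -/
def cellsU (k P m g B N : ℕ) (j : ℕ) : Bool :=
  Nat.rec (motive := fun _ => Bool) true (fun j ih =>
    and (Nat.ble
      (Nat.mul (Nat.add g (Nat.div (Nat.mul (Nat.succ j) (Nat.sub 1000000000 g)) N)) 1000000000)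
      (Nat.mul B (prU P m g (Nat.succ k)
        (Nat.add g (Nat.div (Nat.mul j (Nat.sub 1000000000 g)) N)) 1000000000))) ih) j

/-- all cells of the step downwards -/
def cellsD (k P B G m N : ℕ) (j : ℕ) : Bool :=
  Nat.rec (motive := fun _ => Bool) true (fun j ih =>
    and (Nat.ble
      (Nat.mul m (prD P B G (Nat.succ k)
        (Nat.add 1000000000 (Nat.div (Nat.mul (Nat.succ j) (Nat.sub G 1000000000)) N)) 1000000000))
      (Nat.mul (Nat.add 1000000000 (Nat.div (Nat.mul j (Nat.sub G 1000000000)) N)) 1000000000))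
      ih) j

/-- one step up and one step down -/
def stepOK (k P N m0 B g m G : ℕ) : Bool :=
  and (Nat.ble g (Nat.add (Nat.sub 1000000000 P) (Nat.div (Nat.mul P m0) 1000000000)))
    (and (Nat.ble 1000000000 B)
      (and (cellsU k P m0 g B N N)
        (and (Nat.ble (Nat.succ (Nat.add 1000000000 (Nat.div (Nat.mul P (Nat.sub B 1000000000))
            1000000000))) G)
          (and (Nat.ble 1 m) (and (Nat.ble m 1000000000) (cellsD k P B G m N N))))))

/-- the chain of steps; entries are `(B, g, m, G)` -/
def chain (k P N Bt mt : ℕ) : ℕ → List (ℕ × ℕ × ℕ × ℕ) → Bool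
  | _, [] => false
  | m0, (B, g, m, G) :: l =>
    and (stepOK k P N m0 B g m G) (or (and (Nat.ble B Bt) (Nat.ble mt m)) (chain k P N Bt mt m l))

/-- `P / 10^9` is an upper bound of `2 sin (π / (2 (2 k + 1)))` -/
def okP (k P : ℕ) : Bool :=
  let b := 2 * (2 * k + 1) * 1000000
  Nat.ble (2000000000 * (600 * 3141593 * b ^ 4 + 6 * 3141593 ^ 5))
    (600 * P * b ^ 5 + 2000000000 * (100 * 3141593 ^ 3 * b ^ 2))

/-- targets (`exp (bM k)` from below) -/
def tB (k : ℕ) : ℕ :=
  if k ≤ 3 then 2117000000 else if k = 4 then 2013752000 else if k = 5 then 1934792000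
  else if k = 6 then 1915540000 else if k = 7 then 1877610000 else if k = 8 then 1858928000
  else if k ≤ 10 then 1822118000 else if k ≤ 13 then 1786038000 else if k ≤ 18 then 1759447000
  else if k ≤ 30 then 1733253000 else 1698932000

/-- targets (`exp (-(bm k))` from above) -/
def tm (k : ℕ) : ℕ :=
  if k ≤ 3 then 367879500 else if k = 4 then 379083100 else if k = 5 then 394553800
  else if k = 6 then 398519100 else if k = 7 then 406569700 else if k = 8 then 410655800
  else if k ≤ 10 then 418951600 else if k ≤ 13 then 427415000 else if k ≤ 18 then 436049300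
  else if k ≤ 30 then 444858100 else 456119800

/-- the complete check for one `k` -/
def ent (k P N : ℕ) (l : List (ℕ × ℕ × ℕ × ℕ)) : Bool :=
  and (okP k P) (and (Nat.ble P 999999999) (and (Nat.ble 1 N) (chain k P N (tB k) (tm k) 0 l)))

end Pool.Agent.Helper61.DL
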