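import Pool.Agent.Helper61.DL.BoxDefs
import Pool.Agent.Helper30.DL.GoalsA

/-!
Soundness of the kernel computation of the boxes.
-/

set_option autoImplicit false

open Filter Topology Finset

namespace Pool.Agent.Helper61.DL

open Pool.Agent.Helper30.DL

lemma divle (a : ℕ) : ((a / 1000000000 : ℕ) : ℝ) ≤ (a : ℝ) / 1000000000 := by
  have h := Nat.cast_div_le (m := a) (n := 1000000000) (α := ℝ)
  simpa using h

lemma divge (a : ℕ) : (a : ℝ) / 1000000000 ≤ ((a / 1000000000 + 1 : ℕ) : ℝ) := by
  have h := Nat.lt_mul_div_succ a (b := 1000000000) (by norm_num)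
  have h2 : (a : ℝ) < 1000000000 * ((a / 1000000000 + 1 : ℕ) : ℝ) := by exact_mod_cast h
  rw [div_le_iff₀ (by norm_num)]
  linarith

lemma prU_succ (P m g n x acc : ℕ) :
    prU P m g (n + 1) x acc = prU P m g n (x * g / 1000000000)
      (acc * (g + P * (x - m) / 1000000000) / 1000000000) := rfl

lemma prD_succ (P B G n x acc : ℕ) :
    prD P B G (n + 1) x acc = prD P B G n (x * G / 1000000000 + 1)
      (acc * (G - P * (B - x) / 1000000000) / 1000000000 + 1) := rfl

lemma prU_le (p : ℝ) (P m g : ℕ) (hp0 : 0 ≤ p) (hp1 : p ≤ 1) (hpP : p * 1000000000 ≤ P)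
    (hm : m ≤ 1000000000)
    (hg : (g : ℝ) ≤ 1000000000 - P + P * (m : ℝ) / 1000000000) (n : ℕ) :
    ∀ (x acc : ℕ) (x' a' : ℝ), x ≤ 1000000000 → (x : ℝ) ≤ 1000000000 * x' → x' ≤ 1 → 0 ≤ a' →
      (acc : ℝ) ≤ 1000000000 * a' →
      (prU P m g n x acc : ℝ) ≤ 1000000000 * (a' * ∏ i ∈ range n,
        (1 - p + p * max ((m : ℝ) / 1000000000)
          (x' * (1 - p + p * ((m : ℝ) / 1000000000)) ^ i))) := by
  set m0 : ℝ := (m : ℝ) / 1000000000 with hm0
  have hm0n : 0 ≤ m0 := by positivity
  have hm01 : m0 ≤ 1 := by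
    rw [hm0, div_le_one (by norm_num)]
    exact_mod_cast hm
  set g' : ℝ := 1 - p + p * m0 with hg'
  have hg'0 : 0 ≤ g' := by
    have := mul_nonneg hp0 hm0n
    rw [hg']; linarith
  have hg'1 : g' ≤ 1 := by
    have := mul_le_mul_of_nonneg_left hm01 hp0
    rw [hg']; linarith
  have hmm : (m : ℝ) = 1000000000 * m0 := by rw [hm0]; ring
  have hgg : (g : ℝ) ≤ 1000000000 * g' := by
    have h1 : (p * 1000000000) * (1 - m0) ≤ P * (1 - m0) :=
      mul_le_mul_of_nonneg_right hpP (by linarith)
    have h2 : (P : ℝ) * (m : ℝ) / 1000000000 = P * m0 := by rw [hm0]; ring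
    rw [h2] at hg
    rw [hg']
    nlinarith
  have hg1 : g ≤ 1000000000 := by
    have : (g : ℝ) ≤ 1000000000 := by nlinarith
    exact_mod_cast this
  induction n with
  | zero =>
    intro x acc x' a' _ _ _ _ hacc
    simpa [prU] using hacc
  | succ n ih =>
    intro x acc x' a' hx hxx hx1 ha hacc
    have hx'0 : 0 ≤ x' := by
      have : (0 : ℝ) ≤ x := Nat.cast_nonneg x
      nlinarith
    set f0 : ℝ := 1 - p + p * max m0 x' with hf0
    have hf0g : g' ≤ f0 := by
      have := mul_le_mul_of_nonneg_left (le_max_left m0 x') hp0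
      rw [hg', hf0]; linarith
    have hf00 : 0 ≤ f0 := le_trans hg'0 hf0g
    -- the factor
    have hfac : ((g + P * (x - m) / 1000000000 : ℕ) : ℝ) ≤ 1000000000 * f0 := by
      rcases le_total x m with h | h
      · have : x - m = 0 := Nat.sub_eq_zero_of_le h
        rw [this]
        simp only [mul_zero, Nat.zero_div, add_zero]
        nlinarith
      · have h1 := divle (P * (x - m))
        push_cast [Nat.cast_sub h] at h1 ⊢
        have h2 : (P : ℝ) * ((x : ℝ) - m) / 1000000000
            = P * (x : ℝ) / 1000000000 - P * (m : ℝ) / 1000000000 := by ring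
        rw [h2] at h1
        have hxs : (x : ℝ) ≤ 1000000000 := by exact_mod_cast hx
        have h3 : (p * 1000000000) * (1 - (x : ℝ) / 1000000000)
            ≤ P * (1 - (x : ℝ) / 1000000000) := by
          apply mul_le_mul_of_nonneg_right hpP
          rw [sub_nonneg, div_le_one (by norm_num)]
          exact hxs
        have h4 : p * (x : ℝ) ≤ p * (1000000000 * x') := mul_le_mul_of_nonneg_left hxx hp0
        have h5 : p * x' ≤ p * max m0 x' := mul_le_mul_of_nonneg_left (le_max_right _ _) hp0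
        rw [hf0]
        have h6 : (p * 1000000000) * (1 - (x : ℝ) / 1000000000)
          = p * 1000000000 - p * (x : ℝ) := by ring
        have h7 : (P : ℝ) * (1 - (x : ℝ) / 1000000000) = P - P * (x : ℝ) / 1000000000 := by ring
        rw [h6, h7] at h3
        linarith
    rw [prU_succ]
    have hstep := ih (x * g / 1000000000) (acc * (g + P * (x - m) / 1000000000) / 1000000000)
      (x' * g') (a' * f0) ?_ ?_ ?_ ?_ ?_
    · refine hstep.trans (le_of_eq ?_)
      rw [Finset.prod_range_succ']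
      simp only [pow_zero, mul_one]
      rw [← hf0]
      have : ∀ i : ℕ, x' * g' * g' ^ i = x' * g' ^ (i + 1) := fun i => by ring
      simp only [this]
      ring
    · exact Nat.div_le_of_le_mul (Nat.mul_le_mul hx hg1)
    · refine (divle _).trans ?_
      push_cast
      rw [div_le_iff₀ (by norm_num)]
      have h1 : (x : ℝ) * g ≤ (1000000000 * x') * (1000000000 * g') :=
        mul_le_mul hxx hgg (Nat.cast_nonneg _) (by positivity)
      linarith
    · nlinarith
    · positivity
    · refine (divle _).trans ?_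
      rw [div_le_iff₀ (by norm_num)]
      push_cast at hfac ⊢
      have h1 : (acc : ℝ) * ((g : ℝ) + ((P * (x - m) / 1000000000 : ℕ) : ℝ))
          ≤ (1000000000 * a') * (1000000000 * f0) := by
        apply mul_le_mul hacc _ (by positivity) (by positivity)
        exact_mod_cast hfac
      linarith

lemma prD_ge (p : ℝ) (P B G : ℕ) (hp0 : 0 ≤ p) (hpP : p * 1000000000 ≤ P)
    (hB : 1000000000 ≤ B)
    (hG : 1000000000 + P * ((B : ℝ) - 1000000000) / 1000000000 ≤ (G : ℝ)) (n : ℕ) :
    ∀ (x acc : ℕ) (x' a' : ℝ), 1000000000 * x' ≤ (x : ℝ) → 1 ≤ x' → 0 ≤ a' →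
      1000000000 * a' ≤ (acc : ℝ) →
      1000000000 * (a' * ∏ i ∈ range n,
        (1 - p + p * min ((B : ℝ) / 1000000000)
          (x' * (1 - p + p * ((B : ℝ) / 1000000000)) ^ i))) ≤ (prD P B G n x acc : ℝ) := by
  set B0 : ℝ := (B : ℝ) / 1000000000 with hB0
  have hB01 : 1 ≤ B0 := by
    rw [hB0, le_div_iff₀ (by norm_num)]
    rw [one_mul]
    exact_mod_cast hB
  set G' : ℝ := 1 - p + p * B0 with hG'
  have hG'1 : 1 ≤ G' := by
    have := mul_le_mul_of_nonneg_left hB01 hp0
    rw [hG']; linarith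
  have hGG : 1000000000 * G' ≤ (G : ℝ) := by
    have h1 : (p * 1000000000) * (B0 - 1) ≤ P * (B0 - 1) :=
      mul_le_mul_of_nonneg_right hpP (by linarith)
    have h2 : (P : ℝ) * ((B : ℝ) - 1000000000) / 1000000000 = P * (B0 - 1) := by rw [hB0]; ring
    rw [h2] at hG
    rw [hG']
    nlinarith
  have hBB : (B : ℝ) = 1000000000 * B0 := by rw [hB0]; ring
  induction n with
  | zero =>
    intro x acc x' a' _ _ _ hacc
    simpa [prD] using hacc
  | succ n ih =>
    intro x acc x' a' hxx hx1 ha hacc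
    set f0 : ℝ := 1 - p + p * min B0 x' with hf0
    have hf01 : 1 ≤ f0 := by
      have : 1 ≤ min B0 x' := le_min hB01 hx1
      have := mul_le_mul_of_nonneg_left this hp0
      rw [hf0]; linarith
    have hfG : f0 ≤ G' := by
      have := mul_le_mul_of_nonneg_left (min_le_left B0 x') hp0
      rw [hG', hf0]; linarith
    have hfac : 1000000000 * f0 ≤ ((G - P * (B - x) / 1000000000 : ℕ) : ℝ) := by
      rcases le_total B x with h | h
      · have : B - x = 0 := Nat.sub_eq_zero_of_le h
        rw [this]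
        simp only [mul_zero, Nat.zero_div, Nat.sub_zero]
        nlinarith
      · have h0 : ((G : ℝ) - ((P * (B - x) / 1000000000 : ℕ) : ℝ))
            ≤ ((G - P * (B - x) / 1000000000 : ℕ) : ℝ) := by
          rw [sub_le_iff_le_add]
          exact_mod_cast le_tsub_add
        refine le_trans ?_ h0
        have h1 := divle (P * (B - x))
        push_cast [Nat.cast_sub h] at h1
        have h2 : (P : ℝ) * ((B : ℝ) - x) / 1000000000
            = P * (B0 - 1) - P * ((x : ℝ) / 1000000000 - 1) := by rw [hB0]; ring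
        have h2b : (P : ℝ) * ((B : ℝ) - 1000000000) / 1000000000 = P * (B0 - 1) := by
          rw [hB0]; ring
        rw [h2] at h1
        rw [h2b] at hG
        have hxs : (1000000000 : ℝ) ≤ x := by nlinarith
        have h3 : (p * 1000000000) * ((x : ℝ) / 1000000000 - 1)
            ≤ P * ((x : ℝ) / 1000000000 - 1) := by
          apply mul_le_mul_of_nonneg_right hpP
          rw [sub_nonneg, le_div_iff₀ (by norm_num)]
          linarith
        have h4 : p * (1000000000 * x') ≤ p * (x : ℝ) := mul_le_mul_of_nonneg_left hxx hp0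
        have h5 : p * min B0 x' ≤ p * x' := mul_le_mul_of_nonneg_left (min_le_right _ _) hp0
        rw [hf0]
        have h6 : (p * 1000000000) * ((x : ℝ) / 1000000000 - 1)
          = p * (x : ℝ) - p * 1000000000 := by ring
        rw [h6] at h3
        linarith
    rw [prD_succ]
    have hstep := ih (x * G / 1000000000 + 1)
      (acc * (G - P * (B - x) / 1000000000) / 1000000000 + 1)
      (x' * G') (a' * f0) ?_ ?_ ?_ ?_
    · refine le_trans (le_of_eq ?_) hstep
      rw [Finset.prod_range_succ']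
      simp only [pow_zero, mul_one]
      rw [← hf0]
      have : ∀ i : ℕ, x' * G' * G' ^ i = x' * G' ^ (i + 1) := fun i => by ring
      simp only [this]
      ring
    · refine le_trans ?_ (divge _)
      push_cast
      rw [le_div_iff₀ (by norm_num)]
      have h1 : (1000000000 * x') * (1000000000 * G') ≤ (x : ℝ) * G :=
        mul_le_mul hxx hGG (by positivity) (Nat.cast_nonneg _)
      linarith
    · nlinarith
    · positivity
    · refine le_trans ?_ (divge _)
      rw [le_div_iff₀ (by norm_num)]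
      have h1 : (1000000000 * a') * (1000000000 * f0)
          ≤ (acc : ℝ) * ((G - P * (B - x) / 1000000000 : ℕ) : ℝ) :=
        mul_le_mul hacc hfac (by positivity) (Nat.cast_nonneg _)
      push_cast at h1 ⊢
      linarith

lemma cellsU_succ (k P m g B N j : ℕ) : cellsU k P m g B N (j + 1) =
    (Nat.ble ((g + (j + 1) * (1000000000 - g) / N) * 1000000000)
      (B * prU P m g (k + 1) (g + j * (1000000000 - g) / N) 1000000000)
      && cellsU k P m g B N j) := rfl

lemma cellsD_succ (k P B G m N j : ℕ) : cellsD k P B G m N (j + 1) =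
    (Nat.ble (m * prD P B G (k + 1) (1000000000 + (j + 1) * (G - 1000000000) / N) 1000000000)
      ((1000000000 + j * (G - 1000000000) / N) * 1000000000)
      && cellsD k P B G m N j) := rfl

lemma cellsU_sound (p : ℝ) (k P m g B N : ℕ) (hp0 : 0 ≤ p) (hp1 : p ≤ 1)
    (hpP : p * 1000000000 ≤ P)
    (hm : m ≤ 1000000000)
    (hg : (g : ℝ) ≤ 1000000000 - P + P * (m : ℝ) / 1000000000) (hg1 : g ≤ 1000000000)
    (j : ℕ) (hj : j ≤ N) (h : cellsU k P m g B N j = true) :
    ∀ A : ℝ, (g : ℝ) ≤ 1000000000 * A → A ≤ 1 →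
      1000000000 * A ≤ ((g + j * (1000000000 - g) / N : ℕ) : ℝ) → j ≠ 0 →
      A ≤ (B : ℝ) / 1000000000 * ∏ i ∈ range (k + 1),
        (1 - p + p * max ((m : ℝ) / 1000000000)
          (A * (1 - p + p * ((m : ℝ) / 1000000000)) ^ i)) := by
  induction j with
  | zero => intro A _ _ _ h0; exact absurd rfl h0
  | succ j ih =>
    rw [cellsU_succ, Bool.and_eq_true] at h
    obtain ⟨h1, h2⟩ := h
    intro A hA0 hA1 hA2 _
    rcases le_total (1000000000 * A) ((g + j * (1000000000 - g) / N : ℕ) : ℝ) with hc | hc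
    · rcases Nat.eq_zero_or_pos j with h0 | hpos
      · -- A = g / S, in the first cell
        subst h0
        have hx : ((g + 0 * (1000000000 - g) / N : ℕ) : ℝ) ≤ 1000000000 * A := by
          simpa using hA0
        have h3 := prU_le p P m g hp0 hp1 hpP hm hg (k + 1)
          (g + 0 * (1000000000 - g) / N) 1000000000 A 1 (by simpa using hg1) hx hA1
          zero_le_one (by norm_num)
        have h4 : (((g + (0 + 1) * (1000000000 - g) / N) * 1000000000 : ℕ) : ℝ)
            ≤ ((B * prU P m g (k + 1) (g + 0 * (1000000000 - g) / N) 1000000000 : ℕ) : ℝ) := by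
          exact_mod_cast Nat.le_of_ble_eq_true h1
        rw [Nat.cast_mul, Nat.cast_mul] at h4
        rw [one_mul] at h3
        have h5 := mul_le_mul_of_nonneg_left h3 (Nat.cast_nonneg (α := ℝ) B)
        have h6 : (1000000000 * A) * 1000000000 ≤
            ((g + (0 + 1) * (1000000000 - g) / N : ℕ) : ℝ) * ((1000000000 : ℕ) : ℝ) := by
          push_cast at hA2 ⊢
          linarith
        have h7 := (h6.trans h4).trans h5
        rw [div_mul_eq_mul_div, le_div_iff₀ (by norm_num)]
        linarith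
      · exact ih (by omega) h2 A hA0 hA1 hc (by omega)
    · have hxle : g + j * (1000000000 - g) / N ≤ 1000000000 := by
        have : j * (1000000000 - g) / N ≤ 1000000000 - g := by
          apply Nat.div_le_of_le_mul
          exact Nat.mul_le_mul_right _ (by omega)
        omega
      have h3 := prU_le p P m g hp0 hp1 hpP hm hg (k + 1)
        (g + j * (1000000000 - g) / N) 1000000000 A 1 hxle hc hA1 zero_le_one (by norm_num)
      have h4 : (((g + (j + 1) * (1000000000 - g) / N) * 1000000000 : ℕ) : ℝ)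
          ≤ ((B * prU P m g (k + 1) (g + j * (1000000000 - g) / N) 1000000000 : ℕ) : ℝ) := by
        exact_mod_cast Nat.le_of_ble_eq_true h1
      rw [Nat.cast_mul, Nat.cast_mul] at h4
      rw [one_mul] at h3
      have h5 := mul_le_mul_of_nonneg_left h3 (Nat.cast_nonneg (α := ℝ) B)
      have h6 : (1000000000 * A) * 1000000000 ≤
          ((g + (j + 1) * (1000000000 - g) / N : ℕ) : ℝ) * ((1000000000 : ℕ) : ℝ) := by
        push_cast at hA2 ⊢
        linarith
      have h7 := (h6.trans h4).trans h5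
      rw [div_mul_eq_mul_div, le_div_iff₀ (by norm_num)]
      linarith

lemma cellsD_sound (p : ℝ) (k P B G m N : ℕ) (hp0 : 0 ≤ p)
    (hpP : p * 1000000000 ≤ P)
    (hB : 1000000000 ≤ B)
    (hG : 1000000000 + P * ((B : ℝ) - 1000000000) / 1000000000 ≤ (G : ℝ))
    (j : ℕ) (hj : j ≤ N) (h : cellsD k P B G m N j = true) :
    ∀ A : ℝ, 1 ≤ A →
      1000000000 * A ≤ ((1000000000 + j * (G - 1000000000) / N : ℕ) : ℝ) → j ≠ 0 →
      (m : ℝ) / 1000000000 * ∏ i ∈ range (k + 1),
        (1 - p + p * min ((B : ℝ) / 1000000000)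
          (A * (1 - p + p * ((B : ℝ) / 1000000000)) ^ i)) ≤ A := by
  induction j with
  | zero => intro A _ _ h0; exact absurd rfl h0
  | succ j ih =>
    rw [cellsD_succ, Bool.and_eq_true] at h
    obtain ⟨h1, h2⟩ := h
    intro A hA1 hA2 _
    have main : ((1000000000 + j * (G - 1000000000) / N : ℕ) : ℝ) ≤ 1000000000 * A →
        (m : ℝ) / 1000000000 * ∏ i ∈ range (k + 1),
        (1 - p + p * min ((B : ℝ) / 1000000000)
          (A * (1 - p + p * ((B : ℝ) / 1000000000)) ^ i)) ≤ A := by
      intro hc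
      have h3 := prD_ge p P B G hp0 hpP hB hG (k + 1)
        (1000000000 + (j + 1) * (G - 1000000000) / N) 1000000000 A 1 hA2 hA1 zero_le_one
        (by norm_num)
      have h4 : ((m * prD P B G (k + 1) (1000000000 + (j + 1) * (G - 1000000000) / N)
            1000000000 : ℕ) : ℝ)
          ≤ (((1000000000 + j * (G - 1000000000) / N) * 1000000000 : ℕ) : ℝ) := by
        exact_mod_cast Nat.le_of_ble_eq_true h1
      rw [Nat.cast_mul, Nat.cast_mul] at h4
      rw [one_mul] at h3
      have h5 := mul_le_mul_of_nonneg_left h3 (Nat.cast_nonneg (α := ℝ) m)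
      have h6 : ((1000000000 + j * (G - 1000000000) / N : ℕ) : ℝ) * ((1000000000 : ℕ) : ℝ)
          ≤ (1000000000 * A) * 1000000000 := by
        push_cast at hc ⊢
        linarith
      have h7 := (h5.trans h4).trans h6
      rw [div_mul_eq_mul_div, div_le_iff₀ (by norm_num)]
      linarith
    rcases le_total (1000000000 * A) ((1000000000 + j * (G - 1000000000) / N : ℕ) : ℝ) with hc | hc
    · rcases Nat.eq_zero_or_pos j with h0 | hpos
      · apply main
        subst h0
        simp only [zero_mul, Nat.zero_div, add_zero]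
        push_cast
        linarith
      · exact ih (by omega) h2 A hA1 hc (by omega)
    · exact main hc

lemma stepOK_iff (k P N m0 B g m G : ℕ) (h : stepOK k P N m0 B g m G = true) :
    g ≤ 1000000000 - P + P * m0 / 1000000000 ∧ 1000000000 ≤ B ∧
    cellsU k P m0 g B N N = true ∧
    1000000000 + P * (B - 1000000000) / 1000000000 + 1 ≤ G ∧ 1 ≤ m ∧ m ≤ 1000000000 ∧
    cellsD k P B G m N N = true := by
  unfold stepOK at h
  simp only [Bool.and_eq_true] at h
  obtain ⟨h1, h2, h3, h4, h5, h6, h7⟩ := h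
  refine ⟨Nat.le_of_ble_eq_true h1, Nat.le_of_ble_eq_true h2, h3, ?_,
    Nat.le_of_ble_eq_true h5, Nat.le_of_ble_eq_true h6, h7⟩
  have h4a := Nat.le_of_ble_eq_true h4
  rw [Nat.succ_eq_add_one] at h4a
  exact h4a

lemma step_sound (hU : ExtUStmt) (hD : ExtDStmt) (k : ℕ) (p : ℝ) (X : ℕ → ℝ)
    (P N : ℕ) (hN : 1 ≤ N) (hP : P ≤ 999999999) (hp0 : 0 < p) (hpP : p * 1000000000 ≤ P)
    (hX : SolX k p X) (m0 B g m G : ℕ) (hm0 : m0 ≤ 1000000000)
    (h : stepOK k P N m0 B g m G = true)
    (hev : Tendsto X atTop (𝓝 1) ∨ ∀ᶠ n in atTop, (m0 : ℝ) / 1000000000 ≤ X n) :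
    m ≤ 1000000000 ∧ (Tendsto X atTop (𝓝 1) ∨
      ((∀ᶠ n in atTop, X n ≤ (B : ℝ) / 1000000000) ∧
        ∀ᶠ n in atTop, (m : ℝ) / 1000000000 ≤ X n)) := by
  have hp1 : p < 1 := by
    have : (P : ℝ) ≤ 999999999 := by exact_mod_cast hP
    linarith
  obtain ⟨h1', h2', h3, h4', h5', h6', h7⟩ := stepOK_iff k P N m0 B g m G h
  refine ⟨h6', ?_⟩
  rcases hev with hev | hev
  · exact Or.inl hev
  have hg : (g : ℝ) ≤ 1000000000 - P + P * (m0 : ℝ) / 1000000000 := by
    have a1 : (g : ℝ) ≤ ((1000000000 - P + P * m0 / 1000000000 : ℕ) : ℝ) := by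
      exact_mod_cast h1'
    have a2 := divle (P * m0)
    push_cast [Nat.cast_sub (show P ≤ 1000000000 by omega)] at a1 a2
    linarith
  have hm0r : (m0 : ℝ) ≤ 1000000000 := by exact_mod_cast hm0
  have hm0d : (m0 : ℝ) / 1000000000 ≤ 1 := by
    rw [div_le_one (by norm_num)]; exact hm0r
  have hg1 : g ≤ 1000000000 := by
    have a1 : (g : ℝ) ≤ 1000000000 := by
      have : (P : ℝ) * m0 / 1000000000 ≤ P := by
        rw [mul_div_assoc]
        exact mul_le_of_le_one_right (Nat.cast_nonneg _) hm0d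
      linarith
    exact_mod_cast a1
  have hBr : (1000000000 : ℝ) ≤ B := by exact_mod_cast h2'
  have hB1 : 1 ≤ (B : ℝ) / 1000000000 := by
    rw [le_div_iff₀ (by norm_num)]; linarith
  have hG : 1000000000 + P * ((B : ℝ) - 1000000000) / 1000000000 ≤ (G : ℝ) := by
    have a0 : 1000000000 + (P * (B - 1000000000) / 1000000000 + 1) ≤ G := by
      rw [← add_assoc]; exact h4'
    have a1 : ((1000000000 + (P * (B - 1000000000) / 1000000000 + 1) : ℕ) : ℝ) ≤ (G : ℝ) :=
      Nat.cast_le.mpr a0
    have a2 := divge (P * (B - 1000000000))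
    push_cast [Nat.cast_sub h2'] at a1 a2
    linarith
  have hG1 : 1000000000 ≤ G := by omega
  -- step up
  have hup := hU k p X hp0 hp1 hX ((m0 : ℝ) / 1000000000) ((B : ℝ) / 1000000000) (by positivity)
    hm0d hB1 ?_ hev
  · rcases hup with hup | hup
    · exact Or.inl hup
    · have hdn := hD k p X hp0 hp1 hX ((B : ℝ) / 1000000000) ((m : ℝ) / 1000000000) hB1
        (by have : (0 : ℝ) < m := by exact_mod_cast h5'
            positivity)
        (by rw [div_le_one (by norm_num)]; exact_mod_cast h6') ?_ hup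
      · rcases hdn with hdn | hdn
        · exact Or.inl hdn
        · exact Or.inr ⟨hup, hdn⟩
      · intro A hA1 hA2 _
        refine cellsD_sound p k P B G m N hp0.le hpP h2' hG N le_rfl h7 A hA1 ?_ (by omega)
        rw [Nat.mul_div_cancel_left _ (by omega)]
        have a0 : 1000000000 + (G - 1000000000) = G := by omega
        rw [a0]
        refine le_trans ?_ hG
        have a2 : (p * 1000000000) * ((B : ℝ) / 1000000000 - 1)
            ≤ P * ((B : ℝ) / 1000000000 - 1) :=
          mul_le_mul_of_nonneg_right hpP (by linarith)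
        have a3 : (P : ℝ) * ((B : ℝ) - 1000000000) / 1000000000
          = P * ((B : ℝ) / 1000000000 - 1) := by ring
        rw [a3]
        linarith
  · intro A hA0 hA1 _
    refine cellsU_sound p k P m0 g B N hp0.le hp1.le hpP hm0 hg hg1 N le_rfl h3 A ?_ hA1 ?_
      (by omega)
    · refine hg.trans ?_
      have a2 : (p * 1000000000) * (1 - (m0 : ℝ) / 1000000000)
          ≤ P * (1 - (m0 : ℝ) / 1000000000) :=
        mul_le_mul_of_nonneg_right hpP (by linarith)
      have a3 : (P : ℝ) * (m0 : ℝ) / 1000000000 = P * ((m0 : ℝ) / 1000000000) := by ring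
      rw [a3]
      linarith
    · rw [Nat.mul_div_cancel_left _ (by omega)]
      have a1 : ((g + (1000000000 - g) : ℕ) : ℝ) = 1000000000 := by
        have : g + (1000000000 - g) = 1000000000 := by omega
        rw [this]; norm_num
      rw [a1]
      linarith

lemma chain_sound (hU : ExtUStmt) (hD : ExtDStmt) (k : ℕ) (p : ℝ) (X : ℕ → ℝ)
    (P N Bt mt : ℕ) (hN : 1 ≤ N) (hP : P ≤ 999999999) (hp0 : 0 < p) (hpP : p * 1000000000 ≤ P)
    (hX : SolX k p X) (l : List (ℕ × ℕ × ℕ × ℕ)) : ∀ m0 : ℕ, m0 ≤ 1000000000 →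
    chain k P N Bt mt m0 l = true →
    (Tendsto X atTop (𝓝 1) ∨ ∀ᶠ n in atTop, (m0 : ℝ) / 1000000000 ≤ X n) →
    (Tendsto X atTop (𝓝 1) ∨
      ((∀ᶠ n in atTop, X n ≤ (Bt : ℝ) / 1000000000) ∧
        ∀ᶠ n in atTop, (mt : ℝ) / 1000000000 ≤ X n)) := by
  induction l with
  | nil => intro m0 _ h; simp [chain] at h
  | cons e l ih =>
    intro m0 hm0 h hev
    obtain ⟨B, g, m, G⟩ := e
    have h' : (stepOK k P N m0 B g m G &&
      ((Nat.ble B Bt && Nat.ble mt m) || chain k P N Bt mt m l)) = true := h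
    rw [Bool.and_eq_true, Bool.or_eq_true, Bool.and_eq_true] at h'
    obtain ⟨h1, h2⟩ := h'
    obtain ⟨hm, hs⟩ := step_sound hU hD k p X P N hN hP hp0 hpP hX m0 B g m G hm0 h1 hev
    rcases hs with hs | ⟨hs1, hs2⟩
    · exact Or.inl hs
    rcases h2 with ⟨h3, h4⟩ | h2
    · right
      have h3' : (B : ℝ) ≤ Bt := by exact_mod_cast Nat.le_of_ble_eq_true h3
      have h4' : (mt : ℝ) ≤ m := by exact_mod_cast Nat.le_of_ble_eq_true h4
      constructor
      · filter_upwards [hs1] with n hn
        refine hn.trans ?_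
        gcongr
      · filter_upwards [hs2] with n hn
        refine le_trans ?_ hn
        gcongr
    · exact ih m hm h2 (Or.inr hs2)

lemma pc_le (k P : ℕ) (hk1 : 1 ≤ k) (h : okP k P = true) : pc k * 1000000000 ≤ P := by
  have h' : 2000000000 * (600 * 3141593 * (2 * (2 * k + 1) * 1000000) ^ 4 + 6 * 3141593 ^ 5)
      ≤ 600 * P * (2 * (2 * k + 1) * 1000000) ^ 5
        + 2000000000 * (100 * 3141593 ^ 3 * (2 * (2 * k + 1) * 1000000) ^ 2) :=
    Nat.le_of_ble_eq_true h
  have hr : (2000000000 * (600 * 3141593 * (2 * (2 * (k : ℝ) + 1) * 1000000) ^ 4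
      + 6 * 3141593 ^ 5) : ℝ)
      ≤ 600 * P * (2 * (2 * (k : ℝ) + 1) * 1000000) ^ 5
        + 2000000000 * (100 * 3141593 ^ 3 * (2 * (2 * (k : ℝ) + 1) * 1000000) ^ 2) := by
    exact_mod_cast h'
  set b : ℝ := 2 * (2 * (k : ℝ) + 1) * 1000000 with hb
  have hk : (1 : ℝ) ≤ k := by exact_mod_cast hk1
  have hb2 : 6000000 ≤ b := by rw [hb]; linarith
  have hb0 : 0 < b := by linarith
  have hden : (0 : ℝ) < 2 * (2 * (k : ℝ) + 1) := by linarith
  set x : ℝ := Real.pi / (2 * (2 * k + 1)) with hx
  set y : ℝ := 3141593 / b with hy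
  have hy0 : 0 < y := by positivity
  have hyle : y ≤ 1 := by
    rw [hy, div_le_iff₀ hb0]; linarith
  have hy' : y = 3.141593 / (2 * (2 * (k : ℝ) + 1)) := by
    rw [hy, hb]
    rw [div_eq_div_iff (by positivity) (by positivity)]
    ring
  have hxy : x ≤ y := by
    rw [hx, hy']
    exact div_le_div_of_nonneg_right Real.pi_lt_d6.le hden.le
  have hx0 : 0 ≤ x := by positivity
  have hpi2 := Real.pi_gt_d2
  have hsin : Real.sin x ≤ Real.sin y :=
    Real.sin_le_sin_of_le_of_le_pi_div_two (by linarith) (by linarith) hxy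
  have hsy : Real.sin y ≤ y - y ^ 3 / 6 + y ^ 5 / 100 := by
    have h1 := Real.sin_bound (x := y) (by rw [abs_of_pos hy0]; exact hyle)
    rw [abs_of_pos hy0] at h1
    have h2 := (abs_le.mp h1).2
    linarith
  have hfin : 2 * (y - y ^ 3 / 6 + y ^ 5 / 100) * 1000000000 ≤ P := by
    have h1 : 2 * (y - y ^ 3 / 6 + y ^ 5 / 100) * 1000000000
        = (2000000000 * (600 * 3141593 * b ^ 4 + 6 * 3141593 ^ 5)
          - 2000000000 * (100 * 3141593 ^ 3 * b ^ 2)) / (600 * b ^ 5) := by
      rw [hy]
      field_simp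
      ring
    rw [h1, div_le_iff₀ (by positivity)]
    linarith
  have : pc k = 2 * Real.sin x := rfl
  rw [this]
  linarith

end Pool.Agent.Helper61.DL
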